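import Pool.Agent.Lib.MP_dc87a5_co.Asym

/-!
# MP_dc87a5_co, Q1: planar graphs of girth at least five need about `√n` distance-2 colours
-/

namespace Pool.Agent.Results.MP_dc87a5_co.GirthFive

open Pool.Agent.Lib.MP_dc87a5_co

/-- `ex_2(P_5)(n)` is not `O(n^{1/3})`; in fact it is at least `√n / 4` for all large `n`. -/
theorem result :
    (¬ (fun n : ℕ => (ex 2 5 n : ℝ)) =O[Filter.atTop] fun n : ℕ => (n : ℝ) ^ (1 / 3 : ℝ)) ∧
      ∀ᶠ n : ℕ in Filter.atTop, Real.sqrt n / 4 ≤ (ex 2 5 n : ℝ) :=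
  ⟨five_not, five_lower⟩

end Pool.Agent.Results.MP_dc87a5_co.GirthFive
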