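import Pool.Agent.Lib.MP_dc87a5_co.Asym

/-!
# MP_dc87a5_co, Q2: planar graphs of girth at least six need at least about `n^{1/3}`
distance-2 colours
-/

namespace Pool.Agent.Results.MP_dc87a5_co.GirthSix

open Pool.Agent.Lib.MP_dc87a5_co

/-- `ex_2(P_6)(n)` is not `O(n^{1/4})`; in fact it is at least `n^{1/3} / 3` for all large `n`. -/
theorem result :
    (¬ (fun n : ℕ => (ex 2 6 n : ℝ)) =O[Filter.atTop] fun n : ℕ => (n : ℝ) ^ (1 / 4 : ℝ)) ∧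
      ∀ᶠ n : ℕ in Filter.atTop, (n : ℝ) ^ (1 / 3 : ℝ) / 3 ≤ (ex 2 6 n : ℝ) :=
  ⟨six_not, six_lower⟩

end Pool.Agent.Results.MP_dc87a5_co.GirthSix
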